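import Pool.Agent.Helper93.TCU.Stmts
import Pool.Agent.Helper93.TCU.Bas
import Pool.Agent.Helper3.TCS.Choice

/-!
# CHOICE: a good choice of one option at every vertex (with linear tests)

As `Pool.Agent.Helper3.TCS.Choice`; the events of the local lemma are those of the vertices and
those of the tests.
-/

set_option autoImplicit false

namespace Pool.TCU

open Pool.TC Pool.TCM Pool.TCS Finset
open scoped Classical

set_option linter.unusedSectionVars false

section

variable {V κ : Type} [Fintype V] [Fintype κ]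

/-- the tags of the events at one vertex -/
private abbrev CTag (κ : Type) : Type := Unit ⊕ Unit ⊕ Unit ⊕ κ

/-- the events -/
private abbrev CEv (V κ J : Type) : Type := (V × CTag κ) ⊕ (J ⊕ J)

/-- the position of an event -/
private def cen {V κ J : Type} (ctr : J → V) : CEv V κ J → V
  | Sum.inl p => p.1
  | Sum.inr (Sum.inl j) => ctr j
  | Sum.inr (Sum.inr j) => ctr j

/-- the local lemma for events with positions -/
private theorem lll_pos (hNear : St_Near) (hLLL0 : St_LLL0) (S : CS V κ) {D l : ℕ} {Lam : ℝ}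
    (hdeg : ∀ u, (univ.filter (fun v => S.adj u v)).card ≤ D) (hcol : Fintype.card κ ≤ D)
    (hl : 0 < l) {I : Type} [Fintype I] (ce : I → V) (Mu : ℕ)
    (hMu : ∀ v, (univ.filter (fun j => ce j = v)).card ≤ Mu)
    (hexp : 4 * Real.exp (-Lam) * ((3 * (D : ℝ) + 1) ^ 10 * Mu + 1) ≤ 1)
    (Ev : I → (V → Fin l) → Prop)
    (hloc : ∀ j (ω ω' : V → Fin l), (∀ t, near S 5 (ce j) t → ω t = ω' t) → Ev j ω → Ev j ω')
    (hp : ∀ j, ((univ.filter (fun ω => Ev j ω)).card : ℝ) ≤
      Real.exp (-Lam) * Fintype.card (V → Fin l)) :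
    ∃ ω : V → Fin l, ∀ j, ¬ Ev j ω := by
  obtain ⟨n1, n2, n3, n4⟩ := hNear V κ S D hdeg hcol
  have : Nonempty (Fin l) := ⟨⟨0, hl⟩⟩
  refine hLLL0 V (Fin l) I Ev
    (fun j => univ.filter (fun t => near S 5 (ce j) t)) (Real.exp (-Lam)) ((3 * D + 1) ^ 10 * Mu)
    (fun j ω ω' h => hloc j ω ω' fun t ht => h t (mem_filter.2 ⟨mem_univ _, ht⟩)) hp ?_
    (Real.exp_pos _).le ?_
  · intro j
    have h2 := n4 10 (ce j)
    refine le_trans (card_le_card (t := (univ.filter (fun w => near S 10 (ce j) w)).biUnion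
      (fun v => univ.filter (fun j' => ce j' = v))) fun j' hj' => ?_)
      ((card_biUnion_le_card_mul _ _ Mu fun v _ => hMu v).trans ?_)
    · obtain ⟨t, h2, h3⟩ := (mem_filter.1 hj').2
      rw [mem_biUnion]
      refine ⟨ce j', mem_filter.2 ⟨mem_univ _, ?_⟩, mem_filter.2 ⟨mem_univ _, rfl⟩⟩
      exact n2 5 5 _ _ _ (mem_filter.1 h2).2 (n1 5 _ _ (mem_filter.1 h3).2)
    · exact Nat.mul_le_mul_right _ h2
  · push_cast
    exact hexp

/-- number of events at one vertex -/
private theorem cen_card {J : Type} [Fintype J] {D : ℕ} (ctr : J → V)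
    (hcol : Fintype.card κ ≤ D) (hJ : ∀ v, (univ.filter (fun j => ctr j = v)).card ≤ D ^ 5)
    (v : V) : (univ.filter (fun j : CEv V κ J => cen ctr j = v)).card ≤ 2 * D ^ 5 + D + 3 := by
  have h1 : (univ.filter (fun j : CEv V κ J => cen ctr j = v)) ⊆
      ((univ : Finset (CTag κ)).image (fun t => (Sum.inl (v, t) : CEv V κ J))) ∪
      (((univ.filter (fun j => ctr j = v)).image
        (fun j => (Sum.inr (Sum.inl j) : CEv V κ J))) ∪
      ((univ.filter (fun j => ctr j = v)).image
        (fun j => (Sum.inr (Sum.inr j) : CEv V κ J)))) := by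
    intro j hj
    have hj2 := (mem_filter.1 hj).2
    rcases j with ⟨w, t⟩ | j | j
    · have hw : w = v := hj2
      subst hw
      exact mem_union_left _ (mem_image.2 ⟨t, mem_univ _, rfl⟩)
    · have hw : ctr j = v := hj2
      exact mem_union_right _ (mem_union_left _
        (mem_image.2 ⟨j, mem_filter.2 ⟨mem_univ _, hw⟩, rfl⟩))
    · have hw : ctr j = v := hj2
      exact mem_union_right _ (mem_union_right _
        (mem_image.2 ⟨j, mem_filter.2 ⟨mem_univ _, hw⟩, rfl⟩))
  refine (card_le_card h1).trans ((card_union_le _ _).trans ?_)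
  have h2 : ((univ : Finset (CTag κ)).image (fun t => (Sum.inl (v, t) : CEv V κ J))).card ≤
      D + 3 := by
    refine card_image_le.trans ?_
    simp only [card_univ, Fintype.card_sum, Fintype.card_unit]
    omega
  have h3 := hJ v
  have h4 : ((univ.filter (fun j => ctr j = v)).image
        (fun j => (Sum.inr (Sum.inl j) : CEv V κ J))).card ≤ D ^ 5 := card_image_le.trans h3
  have h5 : ((univ.filter (fun j => ctr j = v)).image
        (fun j => (Sum.inr (Sum.inr j) : CEv V κ J))).card ≤ D ^ 5 := card_image_le.trans h3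
  have h6 := card_union_le ((univ.filter (fun j => ctr j = v)).image
        (fun j => (Sum.inr (Sum.inl j) : CEv V κ J)))
      ((univ.filter (fun j => ctr j = v)).image
        (fun j => (Sum.inr (Sum.inr j) : CEv V κ J)))
  omega

private theorem num_exp {D : ℕ} {Lam : ℝ}
    (hexp : 4 * Real.exp (-Lam) * ((3 * (D : ℝ) + 2) ^ 24 + 1) ≤ 1) :
    4 * Real.exp (-Lam) * ((3 * (D : ℝ) + 1) ^ 10 * ((2 * D ^ 5 + D + 3 : ℕ) : ℝ) + 1) ≤ 1 := by
  refine le_trans ?_ hexp
  have h1 : (3 * D + 1) ^ 10 * (2 * D ^ 5 + D + 3) ≤ (3 * D + 2) ^ 24 := by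
    have h2 : (3 * D + 1) ^ 10 ≤ (3 * D + 2) ^ 10 := Nat.pow_le_pow_left (by omega) 10
    have h3 : 2 * D ^ 5 + D + 3 ≤ (3 * D + 2) ^ 14 := by
      have h4 : D ^ 5 ≤ (3 * D + 2) ^ 5 := Nat.pow_le_pow_left (by omega) 5
      have h5 : D + 3 ≤ (3 * D + 2) ^ 5 * 2 := by
        have h6 : 3 * D + 2 ≤ (3 * D + 2) ^ 5 := Nat.le_self_pow (by norm_num) _
        omega
      have h7 : (3 * D + 2) ^ 5 * 4 ≤ (3 * D + 2) ^ 14 := by
        calc (3 * D + 2) ^ 5 * 4 ≤ (3 * D + 2) ^ 5 * (3 * D + 2) ^ 9 := by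
              refine Nat.mul_le_mul_left _ ?_
              calc 4 ≤ 2 ^ 9 := by norm_num
                _ ≤ (3 * D + 2) ^ 9 := Nat.pow_le_pow_left (by omega) 9
          _ = (3 * D + 2) ^ 14 := by rw [← pow_add]
      omega
    calc (3 * D + 1) ^ 10 * (2 * D ^ 5 + D + 3) ≤ (3 * D + 2) ^ 10 * (3 * D + 2) ^ 14 :=
          Nat.mul_le_mul h2 h3
      _ = (3 * D + 2) ^ 24 := by rw [← pow_add]
  have h8 : (3 * (D : ℝ) + 1) ^ 10 * ((2 * D ^ 5 + D + 3 : ℕ) : ℝ) ≤ (3 * (D : ℝ) + 2) ^ 24 := by
    exact_mod_cast h1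
  have h9 := Real.exp_pos (-Lam)
  gcongr

/-- a function with influence is local -/
private theorem infl_loc {S : CS V κ} {l : ℕ} {u : V} {F : (V → Fin l) → ℝ}
    {R : V → Finset (Fin l)} (h : Infl S l u F R) (ω ω' : V → Fin l)
    (hω : ∀ t, near S 3 u t → ω t = ω' t) : F ω = F ω' := by
  have key : ∀ Q : Finset V, F (fun t => if t ∈ Q then ω' t else ω t) = F ω := by
    intro Q
    induction Q using Finset.induction_on with
    | empty => simp
    | insert w Q hw ih =>
      rw [← ih]
      by_cases hn : near S 3 u w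
      · have h1 : (fun t => if t ∈ insert w Q then ω' t else ω t) =
            (fun t => if t ∈ Q then ω' t else ω t) := by
          funext t
          by_cases ht : t = w
          · subst ht
            rw [if_pos (mem_insert_self _ _), if_neg hw]
            exact (hω t hn).symm
          · by_cases htQ : t ∈ Q
            · rw [if_pos (mem_insert_of_mem htQ), if_pos htQ]
            · rw [if_neg htQ, if_neg fun hc => ?_]
              rcases mem_insert.1 hc with h2 | h2
              · exact ht h2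
              · exact htQ h2
        rw [h1]
      · have hR : R w = ∅ := by
          by_contra hc
          exact hn (h.loc w (nonempty_iff_ne_empty.2 hc))
        refine h.eq w _ _ (fun t ht => ?_) ?_ ?_
        · by_cases htQ : t ∈ Q
          · rw [if_pos (mem_insert_of_mem htQ), if_pos htQ]
          · rw [if_neg htQ, if_neg fun hc => ?_]
            rcases mem_insert.1 hc with h2 | h2
            · exact ht h2
            · exact htQ h2
        · rw [hR]
          exact notMem_empty _
        · rw [hR]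
          exact notMem_empty _
  have h1 := key univ
  simp only [mem_univ, if_true] at h1
  exact h1.symm

/-- the upper tail -/
private theorem infl_bern (hBern : St_Bern) {S : CS V κ} {l : ℕ} {u : V} {F : (V → Fin l) → ℝ}
    {R : V → Finset (Fin l)} (h : Infl S l u F R) {Lam : ℝ} (hl : 0 < l) (hLam : 0 < Lam)
    (hLl : Lam ≤ l) {B : ℝ} (hB : mean F ≤ B) :
    ((univ.filter (fun ω => B + 24 * Real.sqrt (l * Lam) < F ω)).card : ℝ) ≤
      Real.exp (-Lam) * Fintype.card (V → Fin l) := by
  have : Nonempty (Fin l) := ⟨⟨0, hl⟩⟩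
  have hl0 : (0 : ℝ) < l := by exact_mod_cast hl
  have h1 := hBern V (Fin l) F 4 (4 * l) Lam R (by norm_num) hLam (by linarith) h.bd h.eq (by
    rw [Fintype.card_fin]
    exact h.sum)
  refine le_trans ?_ h1
  have h2 : univ.filter (fun ω => B + 24 * Real.sqrt (l * Lam) < F ω) ⊆
      univ.filter (fun ω => mean F + 3 * 4 * Real.sqrt (4 * l * Lam) ≤ F ω) := by
    intro ω hω
    rw [mem_filter] at hω ⊢
    refine ⟨mem_univ _, ?_⟩
    have h3 : Real.sqrt (4 * (l : ℝ) * Lam) = 2 * Real.sqrt (l * Lam) := by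
      rw [mul_assoc, Real.sqrt_mul (by norm_num)]
      congr 1
      rw [show (4 : ℝ) = 2 ^ 2 by norm_num]
      exact Real.sqrt_sq (by norm_num)
    rw [h3]
    linarith [hω.2]
  exact_mod_cast card_le_card h2

private theorem infl_neg {S : CS V κ} {l : ℕ} {u : V} {F : (V → Fin l) → ℝ}
    {R : V → Finset (Fin l)} (h : Infl S l u F R) : Infl S l u (fun ω => -F ω) R := by
  refine ⟨fun w ω ω' hω => ?_, fun w ω ω' hω h1 h2 => ?_, h.sum, h.loc⟩
  · have h3 := h.bd w ω ω' hω
    have h4 : -F ω - -F ω' = -(F ω - F ω') := by ring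
    rw [h4, abs_neg]
    exact h3
  · have h3 := h.eq w ω ω' hω h1 h2
    rw [h3]

end

/-- CHOICE. -/
theorem thm_Choice (hNear : Pool.TCS.St_Near) (hLLL0 : Pool.TCS.St_LLL0)
    (hBern : Pool.TCS.St_Bern) (hE1 : St_E1) (hE2 : St_E2) (hE4 : St_E4) (hI1 : St_I1)
    (hI2 : St_I2) (hC3 : St_C3) (hC4 : St_C4) : St_Choice := by
  intro V κ J _ _ _ _ S U L M D l m K x q Lam ctr T μ h hT
  obtain ⟨e, he⟩ := choice_enu U L l h.card
  obtain ⟨n1, n2, n3, n4⟩ := hNear V κ S D h.deg h.col
  have hb0 := h.bet_pos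
  have hl0 := h.lpos
  set B1 : V → ℝ := fun u => (∑ a ∈ L u ∩ M u, (1 - q u a) * (1 - bet m K * x / l)) -
    2 ^ 18 * (1 / 4) ^ K * l - 2 with hB1
  set B2 : V → ℝ := fun v => ∑ p ∈ Cv S U L v, (1 - bet m K) * (1 - q p.1 p.2) with hB2
  set Ev : CEv V κ J → (V → Fin l) → Prop := fun j ω =>
    match j with
    | Sum.inl (u, Sum.inl _) => u ∈ U ∧ ∑ a ∈ L u ∩ M u, Psi1 S U L l m K x q (oc e ω) u a <
        B1 u - 24 * Real.sqrt (l * Lam)
    | Sum.inl (v, Sum.inr (Sum.inl _)) => B2 v + 24 * Real.sqrt (l * Lam) <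
        ∑ p ∈ Cv S U L v, Psi2 S U L l m K q (oc e ω) p.1 p.2
    | Sum.inl (v, Sum.inr (Sum.inr (Sum.inl _))) =>
        K < (univ.filter (fun w => w ∈ U ∧ S.r w (oc e ω w) = v)).card
    | Sum.inl (u, Sum.inr (Sum.inr (Sum.inr a))) => u ∈ U ∧ a ∈ L u ∧
        K < (KP S U (oc e ω) u a).card
    | Sum.inr (Sum.inl j) => (∑ w ∈ U, ∑ b ∈ L w, T j w b * Mt S U L l m K x q w b) +
        2 * nm U L (T j) / l + Real.sqrt (sq S U L (T j) * Lam) <
        ∑ w ∈ U, ∑ b ∈ L w, T j w b * Psi3 S U L l m K x q (oc e ω) w b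
    | Sum.inr (Sum.inr j) => nm U L (T j) / l +
        3 * Real.sqrt ((μ j * nm U L (T j) / l + Lam * μ j ^ 2) * Lam) <
        ∑ w ∈ U, T j w (oc e ω w) with hEv
  have hnear1 : ∀ u w, stp S u w → near S 5 u w := by
    intro u w hs
    refine n3 1 5 u w (by norm_num) ?_
    exact ⟨u, rfl, hs⟩
  have hcard0 : (0 : ℝ) ≤ Real.exp (-Lam) * Fintype.card (V → Fin l) := by positivity
  have hfalse : ∀ (P : (V → Fin l) → Prop), (∀ ω, ¬ P ω) →
      ((univ.filter (fun ω => P ω)).card : ℝ) ≤ Real.exp (-Lam) * Fintype.card (V → Fin l) := by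
    intro P hP
    rw [filter_eq_empty_iff.2 fun ω _ => hP ω, card_empty, Nat.cast_zero]
    exact hcard0
  obtain ⟨ω, hω⟩ := lll_pos hNear hLLL0 S h.deg h.col h.l0 (cen ctr) (2 * D ^ 5 + D + 3)
    (cen_card ctr h.col hT.mul) (num_exp h.hexp) Ev (by
    rintro (⟨v, tg⟩ | j | j) ω ω' hωω hE
    · have hωω5 : ∀ t, near S 5 v t → ω t = ω' t := hωω
      have hωω3 : ∀ t, near S 3 v t → ω t = ω' t := fun t ht =>
        hωω t (n3 3 5 _ _ (by norm_num) ht)
      rcases tg with _ | _ | _ | a
      · obtain ⟨hu, hE⟩ := hE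
        obtain ⟨R, hR⟩ := hI1 V κ S U L M D l m K x q Lam e h he v hu
        refine ⟨hu, ?_⟩
        have h1 := infl_loc hR ω ω' hωω3
        change ∑ a ∈ L v ∩ M v, Psi1 S U L l m K x q (oc e ω) v a <
          B1 v - 24 * Real.sqrt (l * Lam) at hE
        change ∑ a ∈ L v ∩ M v, Psi1 S U L l m K x q (oc e ω') v a <
          B1 v - 24 * Real.sqrt (l * Lam)
        rw [← h1]
        exact hE
      · obtain ⟨R, hR⟩ := hI2 V κ S U L D l m K x q Lam e h he v
        have h1 := infl_loc hR ω ω' hωω3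
        change B2 v + 24 * Real.sqrt (l * Lam) <
          ∑ p ∈ Cv S U L v, Psi2 S U L l m K q (oc e ω) p.1 p.2 at hE
        change B2 v + 24 * Real.sqrt (l * Lam) <
          ∑ p ∈ Cv S U L v, Psi2 S U L l m K q (oc e ω') p.1 p.2
        rw [← h1]
        exact hE
      · change K < (univ.filter (fun w => w ∈ U ∧ S.r w (oc e ω w) = v)).card at hE
        change K < (univ.filter (fun w => w ∈ U ∧ S.r w (oc e ω' w) = v)).card
        have h1 : univ.filter (fun w => w ∈ U ∧ S.r w (oc e ω w) = v) =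
            univ.filter (fun w => w ∈ U ∧ S.r w (oc e ω' w) = v) := by
          ext w
          rw [mem_filter, mem_filter]
          constructor
          · rintro ⟨h2, h3, h4⟩
            refine ⟨h2, h3, ?_⟩
            have h5 := hωω5 w (hnear1 v w (Or.inr (Or.inr (Or.inr ⟨_, h4⟩))))
            unfold oc at h4 ⊢
            rw [← h5]
            exact h4
          · rintro ⟨h2, h3, h4⟩
            refine ⟨h2, h3, ?_⟩
            have h5 := hωω5 w (hnear1 v w (Or.inr (Or.inr (Or.inr ⟨_, h4⟩))))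
            unfold oc at h4 ⊢
            rw [h5]
            exact h4
        rw [← h1]
        exact hE
      · obtain ⟨hu, ha, hE⟩ := hE
        refine ⟨hu, ha, ?_⟩
        have h1 : KP S U (oc e ω) v a = KP S U (oc e ω') v a := by
          unfold KP
          ext w
          rw [mem_filter, mem_filter]
          constructor
          · rintro ⟨h2, h3, h4, h5⟩
            refine ⟨h2, h3, h4, ?_⟩
            have h6 := hωω5 w (hnear1 v w (Or.inr (Or.inl h4)))
            unfold oc at h5 ⊢
            rw [← h6]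
            exact h5
          · rintro ⟨h2, h3, h4, h5⟩
            refine ⟨h2, h3, h4, ?_⟩
            have h6 := hωω5 w (hnear1 v w (Or.inr (Or.inl h4)))
            unfold oc at h5 ⊢
            rw [h6]
            exact h5
        change K < (KP S U (oc e ω) v a).card at hE
        change K < (KP S U (oc e ω') v a).card
        rw [← h1]
        exact hE
    · have hωω5 : ∀ t, near S 5 (ctr j) t → ω t = ω' t := hωω
      have h1 : ∑ w ∈ U, ∑ b ∈ L w, T j w b * Psi3 S U L l m K x q (oc e ω) w b =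
          ∑ w ∈ U, ∑ b ∈ L w, T j w b * Psi3 S U L l m K x q (oc e ω') w b := by
        refine sum_congr rfl fun w _ => sum_congr rfl fun b _ => ?_
        by_cases hz : T j w b = 0
        · rw [hz, zero_mul, zero_mul]
        · have h2 := hT.loc j w b hz
          have h3 : KR S U (oc e ω) w (S.r w b) = KR S U (oc e ω') w (S.r w b) := by
            have h4 : ∀ w', (∃ c, S.r w' c = S.r w b) → ω w' = ω' w' := by
              rintro w' ⟨c, hc⟩
              refine hωω5 w' (n2 4 1 _ (S.r w b) _ (n2 3 1 _ w _ h2 ?_) ?_)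
              · exact ⟨w, rfl, Or.inr (Or.inr (Or.inl ⟨b, rfl⟩))⟩
              · exact ⟨S.r w b, rfl, Or.inr (Or.inr (Or.inr ⟨c, hc⟩))⟩
            unfold KR
            ext w'
            rw [mem_filter, mem_filter]
            constructor
            · rintro ⟨h5, h6, h7, h8⟩
              refine ⟨h5, h6, h7, ?_⟩
              have h9 := h4 w' ⟨_, h8⟩
              unfold oc at h8 ⊢
              rw [← h9]
              exact h8
            · rintro ⟨h5, h6, h7, h8⟩
              refine ⟨h5, h6, h7, ?_⟩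
              have h9 := h4 w' ⟨_, h8⟩
              unfold oc at h8 ⊢
              rw [h9]
              exact h8
          unfold Psi3
          rw [h3]
      change (∑ w ∈ U, ∑ b ∈ L w, T j w b * Mt S U L l m K x q w b) +
        2 * nm U L (T j) / l + Real.sqrt (sq S U L (T j) * Lam) <
        ∑ w ∈ U, ∑ b ∈ L w, T j w b * Psi3 S U L l m K x q (oc e ω) w b at hE
      change (∑ w ∈ U, ∑ b ∈ L w, T j w b * Mt S U L l m K x q w b) +
        2 * nm U L (T j) / l + Real.sqrt (sq S U L (T j) * Lam) <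
        ∑ w ∈ U, ∑ b ∈ L w, T j w b * Psi3 S U L l m K x q (oc e ω') w b
      rw [← h1]
      exact hE
    · have hωω5 : ∀ t, near S 5 (ctr j) t → ω t = ω' t := hωω
      have h1 : ∑ w ∈ U, T j w (oc e ω w) = ∑ w ∈ U, T j w (oc e ω' w) := by
        refine sum_congr rfl fun w _ => ?_
        by_cases hn : near S 3 (ctr j) w
        · have h2 := hωω5 w (n3 3 5 _ _ (by norm_num) hn)
          unfold oc
          rw [h2]
        · have h2 : ∀ b, T j w b = 0 := fun b => by
            by_contra hc
            exact hn (hT.loc j w b hc)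
          rw [h2, h2]
      change nm U L (T j) / l +
        3 * Real.sqrt ((μ j * nm U L (T j) / l + Lam * μ j ^ 2) * Lam) <
        ∑ w ∈ U, T j w (oc e ω w) at hE
      change nm U L (T j) / l +
        3 * Real.sqrt ((μ j * nm U L (T j) / l + Lam * μ j ^ 2) * Lam) <
        ∑ w ∈ U, T j w (oc e ω' w)
      rw [← h1]
      exact hE) (by
    rintro (⟨v, tg⟩ | j | j)
    · rcases tg with _ | _ | _ | a
      · by_cases hu : v ∈ U
        · obtain ⟨R, hR⟩ := hI1 V κ S U L M D l m K x q Lam e h he v hu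
          have h1 : mean (fun ω : V → Fin l =>
              -∑ a ∈ L v ∩ M v, Psi1 S U L l m K x q (oc e ω) v a) ≤ -B1 v := by
            rw [choice_mean_neg, choice_mean_sum, neg_le_neg_iff]
            have h2 : ∑ a ∈ L v ∩ M v, ((1 - q v a) * (1 - bet m K * x / l) -
                2 ^ 18 * (1 / 4) ^ K - 2 / l) ≤ ∑ a ∈ L v ∩ M v,
                mean (fun ω : V → Fin l => Psi1 S U L l m K x q (oc e ω) v a) :=
              sum_le_sum fun a ha =>
                hE1 V κ S U L D l m K x q Lam e h he v hu a (mem_inter.1 ha).1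
            refine le_trans ?_ h2
            have h3 : ((L v ∩ M v).card : ℝ) ≤ l := by
              have h4 : (L v ∩ M v).card ≤ (L v).card := card_le_card inter_subset_left
              rw [h.card v hu] at h4
              exact_mod_cast h4
            have h5 : ∑ a ∈ L v ∩ M v, ((1 - q v a) * (1 - bet m K * x / l) -
                2 ^ 18 * (1 / 4) ^ K - 2 / l) =
                (∑ a ∈ L v ∩ M v, (1 - q v a) * (1 - bet m K * x / l)) -
                ((L v ∩ M v).card : ℝ) * (2 ^ 18 * (1 / 4) ^ K) -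
                ((L v ∩ M v).card : ℝ) * (2 / l) := by
              rw [sum_sub_distrib, sum_sub_distrib, sum_const, sum_const, nsmul_eq_mul,
                nsmul_eq_mul]
            rw [h5, hB1]
            have h6 : ((L v ∩ M v).card : ℝ) * (2 ^ 18 * (1 / 4) ^ K) ≤
                l * (2 ^ 18 * (1 / 4) ^ K) := mul_le_mul_of_nonneg_right h3 (by positivity)
            have h7 : ((L v ∩ M v).card : ℝ) * (2 / l) ≤ 2 := by
              calc ((L v ∩ M v).card : ℝ) * (2 / l) ≤ l * (2 / l) :=
                    mul_le_mul_of_nonneg_right h3 (by positivity)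
                _ = 2 := by field_simp
            have h8 : (l : ℝ) * (2 ^ 18 * (1 / 4) ^ K) = 2 ^ 18 * (1 / 4) ^ K * l := by ring
            rw [h8] at h6
            change (∑ a ∈ L v ∩ M v, (1 - q v a) * (1 - bet m K * x / l)) -
              2 ^ 18 * (1 / 4) ^ K * l - 2 ≤ _
            linarith
          refine le_trans (choice_card_le fun ω hω => ?_)
            (infl_bern hBern (infl_neg hR) h.l0 h.Lpos h.Ll h1)
          have h3 : ∑ a ∈ L v ∩ M v, Psi1 S U L l m K x q (oc e ω) v a <
            B1 v - 24 * Real.sqrt (l * Lam) := hω.2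
          linarith
        · exact hfalse _ fun ω hω => hu hω.1
      · obtain ⟨R, hR⟩ := hI2 V κ S U L D l m K x q Lam e h he v
        refine infl_bern hBern hR h.l0 h.Lpos h.Ll ?_
        rw [choice_mean_sum]
        refine sum_le_sum fun p hp => ?_
        unfold Cv at hp
        rw [mem_filter] at hp
        exact hE2 V κ S U L D l m K x q Lam e h he p.1 hp.2.1 p.2 hp.2.2.1
      · exact le_trans (choice_card_le fun ω hω => hω)
          ((hE4 V κ S U L D l m K x q Lam e h he).2 v)
      · by_cases hu : v ∈ U ∧ a ∈ L v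
        · obtain ⟨hu, ha⟩ := hu
          exact le_trans (choice_card_le fun ω hω => hω.2.2)
            ((hE4 V κ S U L D l m K x q Lam e h he).1 v hu a ha)
        · exact hfalse _ fun ω hω => hu ⟨hω.1, hω.2.1⟩
    · exact le_trans (choice_card_le fun ω hω => hω)
        (hC3 V κ S U L D l m K x q Lam e (T j) h he (hT.nn j))
    · exact le_trans (choice_card_le fun ω hω => hω)
        (hC4 V κ U L l Lam (μ j) e (T j) he h.l0 h.Lpos (hT.pos j) (hT.nn j) (hT.le j)))
  refine ⟨oc e ω, ⟨?_, ?_, ?_⟩, ?_, ?_, ?_, ?_⟩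
  · intro u hu
    exact (he.mem u hu _).2 ⟨ω u, rfl⟩
  · intro u hu a ha
    have h1 := hω (Sum.inl (u, Sum.inr (Sum.inr (Sum.inr a))))
    by_contra hc
    exact h1 ⟨hu, ha, not_le.1 hc⟩
  · intro v
    have h1 := hω (Sum.inl (v, Sum.inr (Sum.inr (Sum.inl ()))))
    by_contra hc
    exact h1 (not_le.1 hc)
  · intro u hu
    have h1 := hω (Sum.inl (u, Sum.inl ()))
    by_contra hc
    exact h1 ⟨hu, not_le.1 hc⟩
  · intro v
    have h1 := hω (Sum.inl (v, Sum.inr (Sum.inl ())))
    by_contra hc
    exact h1 (not_le.1 hc)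
  · intro j
    have h1 := hω (Sum.inr (Sum.inl j))
    by_contra hc
    exact h1 (not_le.1 hc)
  · intro j
    have h1 := hω (Sum.inr (Sum.inr j))
    by_contra hc
    exact h1 (not_le.1 hc)

end Pool.TCU
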